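import Mathlib

set_option autoImplicit false

namespace Pool.Agent.H334R3.Ber

variable {R : Type*} [CommRing R]

/-- abstract form of the transposition automorphism -/
theorem abs_equiv (u w : R) (a d : R →+ ℤ)
    (h1 : ∀ x, u * x = (a x : R) * u + 2 * (d x : R) * w)
    (ind : ∀ p q : ℤ, (p : R) * u + (q : R) * w = 0 → p = 0 ∧ q = 0)
    (hau : a u = 4) (hdu : d u = 2) (haw : a w = 32) (hdw : d w = -2) :
    ∃ σ : R ≃+* R, ∀ x, σ x = x - (d x : R) * u := by
  have h2 : u * u = 4 * u + 4 * w := by
    have := h1 u
    rw [hau, hdu] at this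
    rw [this]; push_cast; ring
  have h3 : u * w = 32 * u - 4 * w := by
    have := h1 w
    rw [haw, hdw] at this
    rw [this]; push_cast; ring
  have h4 : ∀ y, 4 * (w * y) = 64 * (d y : R) * u + (4 * (a y : R) - 16 * (d y : R)) * w := by
    intro y
    have e : 4 * w = u * u - 4 * u := by rw [h2]; ring
    have : 4 * (w * y) = u * (u * y) - 4 * (u * y) := by
      calc 4 * (w * y) = (4 * w) * y := by ring
        _ = _ := by rw [e]; ring
    rw [this, h1 y]
    have : u * ((a y : R) * u + 2 * (d y : R) * w) = (a y : R) * (u * u) + 2 * (d y : R) * (u * w) := by ring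
    rw [this, h2, h3]; ring
  have hd : ∀ x y, d (x * y) = a x * d y + d x * a y - 4 * d x * d y := by
    intro x y
    have e1 : u * (x * y) = ((a (x * y) : ℤ) : R) * u + 2 * ((d (x * y) : ℤ) : R) * w := h1 _
    have e2 : 4 * (u * (x * y)) = 4 * ((a x : R) * ((a y : R) * u + 2 * (d y : R) * w))
        + 2 * (d x : R) * (64 * (d y : R) * u + (4 * (a y : R) - 16 * (d y : R)) * w) := by
      have : u * (x * y) = (a x : R) * (u * y) + 2 * (d x : R) * (w * y) := by
        rw [← mul_assoc, h1 x]; ring
      rw [this, ← h4 y, ← h1 y]; ring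
    have e3 : ((4 * a (x * y) - 4 * (a x * a y) - 128 * (d x * d y) : ℤ) : R) * u
        + ((8 * (d (x * y) - (a x * d y + d x * a y - 4 * d x * d y)) : ℤ) : R) * w = 0 := by
      rw [e1] at e2
      push_cast
      linear_combination e2
    have := (ind _ _ e3).2
    linarith
  have hd1 : d 1 = 0 := by
    have e : u * 1 = _ := h1 1
    rw [mul_one] at e
    have e3 : ((a 1 - 1 : ℤ) : R) * u + ((2 * d 1 : ℤ) : R) * w = 0 := by
      push_cast
      linear_combination -e
    have := (ind _ _ e3).2
    linarith
  let φ : R → R := fun x => x - (d x : R) * u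
  have hinv : ∀ x, φ (φ x) = x := by
    intro x
    have : d (x - (d x : R) * u) = - d x := by
      rw [map_sub]
      have : (d x : R) * u = (d x) • u := by rw [zsmul_eq_mul]
      rw [this, map_zsmul, hdu, smul_eq_mul]; ring
    simp only [φ]
    rw [this]; push_cast; ring
  refine ⟨{ toFun := φ, invFun := φ, left_inv := hinv, right_inv := hinv,
            map_mul' := ?_, map_add' := ?_ }, fun x => rfl⟩
  · intro x y
    simp only [φ]
    rw [hd]
    have : (x - (d x : R) * u) * (y - (d y : R) * u) =
      x * y - (d x : R) * (u * y) - (d y : R) * (u * x) + (d x : R) * (d y : R) * (u * u) := by ring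
    rw [this, h1 x, h1 y, h2]
    push_cast
    ring
  · intro x y
    simp only [φ, map_add]
    push_cast
    ring

end Pool.Agent.H334R3.Ber
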