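import Pool.Agent.H334R3.Ber.Fun
import Pool.Agent.H334R3.Ber.Abs

set_option autoImplicit false

namespace Pool.Agent.H334R3.Ber
open X Gam G

abbrev A : Type := MonoidAlgebra ℤ G

noncomputable def sA (g : G) : A := MonoidAlgebra.single g (1 : ℤ)

/-- the odd part of the coefficient function -/
def fm (x : A) (g : G) : ℤ := x.coeff g - x.coeff (z * g)

theorem sA_coeff (h : G) (x : A) (g : G) : (sA h * x).coeff g = x.coeff (h⁻¹ * g) := by
  unfold sA
  rw [MonoidAlgebra.coeff_single_mul_apply, one_mul]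

theorem coeff_sA (h : G) (x : A) (g : G) : (x * sA h).coeff g = x.coeff (g * h⁻¹) := by
  unfold sA
  rw [MonoidAlgebra.coeff_mul_single_apply, mul_one]

theorem z_inv : (z : G)⁻¹ = z := by rw [inv_eq_iff_mul_eq_one]; exact z_sq

theorem fm_odd (x : A) (g : G) : fm x (z * g) = - fm x g := by
  unfold fm
  rw [← mul_assoc, z_sq, one_mul]; ring

theorem oneSub_coeff (y : A) (g : G) : ((1 - sA z) * y).coeff g = fm y g := by
  rw [sub_mul, one_mul, MonoidAlgebra.coeff_sub, Finsupp.sub_apply, sA_coeff, z_inv]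
  rfl

theorem fm_add (x y : A) (g : G) : fm (x + y) g = fm x g + fm y g := by
  unfold fm
  rw [MonoidAlgebra.coeff_add, Finsupp.add_apply, Finsupp.add_apply]; ring

theorem fm_sum {ι : Type*} (s : Finset ι) (y : ι → A) (g : G) : fm (∑ i ∈ s, y i) g = ∑ i ∈ s, fm (y i) g := by
  unfold fm
  rw [MonoidAlgebra.coeff_sum, Finsupp.finsetSum_apply, Finsupp.finsetSum_apply, Finset.sum_sub_distrib]

theorem fm_sA (h : G) (x : A) (g : G) : fm (sA h * x) g = fm x (h⁻¹ * g) := by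
  unfold fm
  rw [sA_coeff, sA_coeff, ← mul_assoc, ← z_comm, mul_assoc]

theorem fm_nat (n : ℕ) (x : A) (g : G) : fm ((n : A) * x) g = n * fm x g := by
  rw [← nsmul_eq_mul]
  unfold fm
  rw [MonoidAlgebra.coeff_smul, Finsupp.smul_apply, Finsupp.smul_apply, nsmul_eq_mul, nsmul_eq_mul]; ring

noncomputable def u0 : A := (1 - sA z) * ((2 : ℕ) + ∑ t ∈ T, (sA (m t 1 0 0 0) + sA (m 1 t 0 0 0)))

noncomputable def w0 : A := (1 - sA z) * ((8 : ℕ) + ∑ t ∈ T, ∑ t' ∈ T, sA (m t 1 0 0 0) * sA (m 1 t' 0 0 0))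

theorem u0_mul (x : A) (g : G) : (u0 * x).coeff g = E (fm x) g := by
  unfold u0 E
  rw [mul_assoc, oneSub_coeff, add_mul, fm_add, fm_nat, Finset.sum_mul, fm_sum]
  congr 1
  refine Finset.sum_congr rfl fun t _ => ?_
  rw [add_mul, fm_add, fm_sA, fm_sA]

theorem w0_mul (x : A) (g : G) : (w0 * x).coeff g = 8 * fm x g +
    ∑ t ∈ T, ∑ t' ∈ T, fm x ((m 1 t' 0 0 0)⁻¹ * ((m t 1 0 0 0)⁻¹ * g)) := by
  unfold w0
  rw [mul_assoc, oneSub_coeff, add_mul, fm_add, fm_nat, Finset.sum_mul, fm_sum]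
  congr 1
  refine Finset.sum_congr rfl fun t _ => ?_
  rw [Finset.sum_mul, fm_sum]
  refine Finset.sum_congr rfl fun t' _ => ?_
  rw [mul_assoc, fm_sA, fm_sA]

theorem ocf_fm (x : A) (hx : ∀ h : G, sA h * x = x * sA h) : OCF (fm x) := by
  have key : ∀ h g g' : G, h * g = g' * h → x.coeff g = x.coeff g' := by
    intro h g g' hg
    have h1 : (sA h * x).coeff (h * g) = (x * sA h).coeff (g' * h) := by rw [hx, hg]
    rwa [sA_coeff, coeff_sA, inv_mul_cancel_left, mul_inv_cancel_right] at h1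
  refine ⟨?_, fm_odd x⟩
  intro h g g' hg
  unfold fm
  rw [key h g g' hg, key h (z * g) (z * g') (by rw [← mul_assoc, ← z_comm, mul_assoc, hg, mul_assoc])]

theorem eq_one_iff (a b : X) (e s k : ZMod 2) : m a b e s k = 1 ↔
    s = 0 ∧ k = 0 ∧ ((e = 0 ∧ ((a = 1 ∧ b = 1) ∨ (a = z0 ∧ b = z0))) ∨
      (e = 1 ∧ ((a = 1 ∧ b = z0) ∨ (a = z0 ∧ b = 1)))) := by
  rw [← m_one, eq_comm, m_eq_iff]
  constructor
  · rintro ⟨rfl, rfl, a', b', rfl, rfl, rfl⟩
    refine ⟨rfl, rfl, ?_⟩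
    rcases s_cases a' with rfl | rfl <;> rcases s_cases b' with rfl | rfl <;> decide
  · rintro ⟨rfl, rfl, ⟨rfl, ⟨rfl, rfl⟩ | ⟨rfl, rfl⟩⟩ | ⟨rfl, ⟨rfl, rfl⟩ | ⟨rfl, rfl⟩⟩⟩
    · exact ⟨rfl, rfl, 0, 0, rfl, rfl, rfl⟩
    · exact ⟨rfl, rfl, 1, 1, by decide, by decide, rfl⟩
    · exact ⟨rfl, rfl, 0, 1, by decide, by decide, rfl⟩
    · exact ⟨rfl, rfl, 1, 0, by decide, by decide, rfl⟩

theorem fm_one (a b : X) (s k : ZMod 2) :
    fm 1 (m a b 0 s k) = if s = 0 ∧ k = 0 then nu a * nu b else 0 := by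
  classical
  have c1 : ∀ g : G, (1 : A).coeff g = if g = 1 then 1 else 0 := by
    intro g
    rw [MonoidAlgebra.one_def, MonoidAlgebra.coeff_single, Finsupp.single_apply]
    simp only [eq_comm]
  unfold fm
  rw [c1, c1, z_mul, add_zero]
  by_cases hs : s = 0 ∧ k = 0
  · obtain ⟨rfl, rfl⟩ := hs
    have hz : z0 ≠ (1 : X) := z0_ne
    have hz' : (1 : X) ≠ z0 := z0_ne.symm
    simp only [eq_one_iff, nu]
    by_cases ha : a = 1 <;> by_cases hb : b = 1 <;> by_cases ha' : a = z0 <;> by_cases hb' : b = z0 <;>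
      simp_all
  · rw [if_neg hs, if_neg, if_neg]
    · ring
    · rw [eq_one_iff]; rintro ⟨h1, h2, _⟩; exact hs ⟨h1, h2⟩
    · rw [eq_one_iff]; rintro ⟨h1, h2, _⟩; exact hs ⟨h1, h2⟩

theorem ocf_one : OCF (fm 1) := ocf_fm 1 fun h => by rw [mul_one, one_mul]

theorem u0_coeff (a b : X) (s k : ZMod 2) : u0.coeff (m a b 0 s k) =
    if s = 0 ∧ k = 0 then 2 * (nu a * nu b) + (ta a * nu b + nu a * ta b) else 0 := by
  have h := u0_mul 1 (m a b 0 s k)
  rw [mul_one] at h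
  have f1 : fm 1 (m 1 1 0 0 0) = 1 := by rw [fm_one]; decide
  have f2 : fm 1 (m t0 1 0 0 0) = 0 := by rw [fm_one]; decide
  have f3 : fm 1 (m t0 t0 0 0 0) = 0 := by rw [fm_one]; decide
  rw [h, E_eq ocf_one, f1, f2, f3]
  split_ifs <;> ring

theorem nu_shift_odd {t : X} (ht : t ∈ T) (a : X) (ha : par a = 1) : nu (t⁻¹ * a) = 0 :=
  nu_odd _ (by rw [par_shift ht, ha])

theorem conv1' (a : X) : ∑ t ∈ T, nu (t⁻¹ * a) = ta a := by
  rcases par_cases a with ha | ha
  · exact conv1 a ha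
  · rw [ta_odd a ha]
    exact Finset.sum_eq_zero fun t ht => nu_shift_odd ht a ha

theorem w0_coeff (a b : X) (s k : ZMod 2) : w0.coeff (m a b 0 s k) =
    if s = 0 ∧ k = 0 then 8 * (nu a * nu b) + ta a * ta b else 0 := by
  have h := w0_mul 1 (m a b 0 s k)
  rw [mul_one] at h
  rw [h, fm_one]
  have e : ∀ t ∈ T, ∀ t' ∈ T, fm 1 ((m 1 t' 0 0 0)⁻¹ * ((m t 1 0 0 0)⁻¹ * m a b 0 s k)) =
      if s = 0 ∧ k = 0 then nu (t⁻¹ * a) * nu (t'⁻¹ * b) else 0 := by
    intro t ht t' ht'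
    rw [shift1, shift2 _ _ _ (T_par t' ht'), fm_one]
  rw [Finset.sum_congr rfl fun t ht => Finset.sum_congr rfl (e t ht)]
  split_ifs with hs
  · rw [← conv1' a, ← conv1' b, Finset.sum_mul_sum]
  · simp

/-- a function given by a symmetric class function on pairs commutes with everything -/
theorem comm_of (U : G → ℤ) (P : X → X → ℤ)
    (hU : ∀ a b s k, U (m a b 0 s k) = if s = 0 ∧ k = 0 then P a b else 0)
    (hodd : ∀ g, U (z * g) = - U g)
    (h1 : ∀ h a b, P (h * a * h⁻¹) b = P a b) (h2 : ∀ h a b, P a (h * b * h⁻¹) = P a b)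
    (hs : ∀ a b, P a b = P b a) (o1 : ∀ a b, par a = 1 → P a b = 0) :
    ∀ h g, U (h * g) = U (g * h) := by
  have o2 : ∀ a b, par b = 1 → P a b = 0 := fun a b hb => by rw [hs]; exact o1 b a hb
  have hsn : ∀ x y e s k, U (m x y e s k) = sn e * U (m x y 0 s k) := by
    intro x y e s k
    rcases s_cases e with rfl | rfl
    · simp [sn]
    · have h := hodd (m x y 0 s k)
      rw [z_mul, add_zero] at h
      rw [h]; simp [sn]
  have hUe : ∀ a b e s k, U (m a b e s k) = if s = 0 ∧ k = 0 then sn e * P a b else 0 := by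
    intro a b e s k
    rw [hsn, hU]; split_ifs <;> simp
  have P1 : ∀ x a b, P (x * a) b = P (a * x) b := fun x a b => by
    rw [← h1 x (a * x) b]; congr 1; group
  have P2 : ∀ x a b, P a (x * b) = P a (b * x) := fun x a b => by
    rw [← h2 x a (b * x)]; congr 1; group
  -- closure under products
  have hmul : ∀ h h', (∀ g, U (h * g) = U (g * h)) → (∀ g, U (h' * g) = U (g * h')) →
      ∀ g, U (h * h' * g) = U (g * (h * h')) := by
    intro h h' e e' g
    rw [mul_assoc, e, mul_assoc, e', mul_assoc]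
  have g1 : ∀ x g, U (m x 1 0 0 0 * g) = U (g * m x 1 0 0 0) := by
    intro x g
    obtain ⟨a, b, s, k, rfl⟩ := m_surj0 g
    rcases s_cases s with rfl | rfl
    · rw [m_mul0, m_mul0, hUe, hUe, par_one]
      simp only [zero_mul, mul_zero, add_zero, zero_add, one_mul, mul_one, sn_zero]
      rcases par_cases b with hb | hb
      · rw [hb, zero_mul, sn_zero, one_mul, P1]
      · rw [o2 _ _ hb, o2 _ _ hb, mul_zero]
    · rw [m_mul0, m_mul1, hUe, hUe, if_neg (by simp), if_neg (by simp)]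
  have g2 : ∀ x g, U (m 1 x 0 0 0 * g) = U (g * m 1 x 0 0 0) := by
    intro x g
    obtain ⟨a, b, s, k, rfl⟩ := m_surj0 g
    rcases s_cases s with rfl | rfl
    · rw [m_mul0, m_mul0, hUe, hUe, par_one]
      simp only [zero_mul, mul_zero, add_zero, zero_add, one_mul, mul_one, sn_zero]
      rcases par_cases a with ha | ha
      · rw [ha, mul_zero, sn_zero, one_mul, P2]
      · rw [o1 _ _ ha, o1 _ _ ha, mul_zero]
    · rw [m_mul0, m_mul1, hUe, hUe, if_neg (by simp), if_neg (by simp)]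
  have g3 : ∀ g, U (m 1 1 0 1 0 * g) = U (g * m 1 1 0 1 0) := by
    intro g
    obtain ⟨a, b, s, k, rfl⟩ := m_surj0 g
    rcases s_cases s with rfl | rfl
    · rw [m_mul1, m_mul0, hUe, hUe, if_neg (by simp), if_neg (by simp)]
    · rw [m_mul1, m_mul1, hUe, hUe, par_one]
      rcases s_cases k with rfl | rfl
      · rw [if_pos ⟨rfl, by simp⟩, if_pos ⟨rfl, by simp⟩]
        simp only [zero_mul, mul_zero, add_zero, zero_add, one_mul, mul_one, sn_zero]
        rcases par_cases a with ha | ha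
        · rw [ha, zero_mul, sn_zero, one_mul, hs]
        · rw [o1 _ _ ha, o2 _ _ ha, mul_zero]
      · rw [if_neg (by simp), if_neg (by simp)]
  have g4 : ∀ g, U (m 1 1 0 0 1 * g) = U (g * m 1 1 0 0 1) := by
    intro g
    obtain ⟨a, b, s, k, rfl⟩ := m_surj0 g
    rcases s_cases s with rfl | rfl
    · rw [m_mul0, m_mul0, hUe, hUe, par_one]
      simp only [zero_mul, mul_zero, add_zero, zero_add, one_mul, mul_one, sn_zero, add_comm]
    · rw [m_mul0, m_mul1, hUe, hUe, if_neg (by simp), if_neg (by simp)]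
  have g5 : ∀ g, U (z * g) = U (g * z) := fun g => by rw [z_comm]
  intro h g
  obtain ⟨x, y, s, k, rfl⟩ := m_surj0 h
  have e : m x y 0 s k = m x 1 0 0 0 * m 1 y 0 0 0 * m 1 1 0 s 0 * m 1 1 0 0 k := by
    rw [m_mul0, m_mul0]
    rcases s_cases s with rfl | rfl
    · rw [m_mul0, par_one]
      simp
    · rw [m_mul1, par_one]
      simp
  rw [e]
  refine hmul _ _ (hmul _ _ (hmul _ _ (g1 x) (g2 y)) ?_) ?_ g
  · rcases s_cases s with rfl | rfl
    · intro g; rw [m_one]; simp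
    · exact g3
  · rcases s_cases k with rfl | rfl
    · intro g; rw [m_one]; simp
    · exact g4

end Pool.Agent.H334R3.Ber
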