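import Pool.Agent.H334R3.Ber.Gam

set_option autoImplicit false

namespace Pool.Agent.H334R3.Ber
open X Gam G

/-- odd class functions on `G` -/
structure OCF (f : G → ℤ) : Prop where
  cl : ∀ h g g' : G, h * g = g' * h → f g = f g'
  odd : ∀ g, f (z * g) = - f g

/-- the operator multiplication by `2 + K_A` on functions -/
def E (f : G → ℤ) (g : G) : ℤ :=
  2 * f g + ∑ t ∈ T, (f ((m t 1 0 0 0)⁻¹ * g) + f ((m 1 t 0 0 0)⁻¹ * g))

theorem inv1' (t : X) : (m t 1 0 0 0)⁻¹ = m t⁻¹ 1 0 0 0 := by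
  rw [inv_eq_iff_mul_eq_one, m_mul0, mul_inv_cancel, par_one, mul_one]
  simp only [zero_mul, mul_zero, add_zero]
  exact m_one

theorem inv2' (t : X) : (m 1 t 0 0 0)⁻¹ = m 1 t⁻¹ 0 0 0 := by
  rw [inv_eq_iff_mul_eq_one, m_mul0, mul_inv_cancel, par_one, mul_one]
  simp only [zero_mul, mul_zero, add_zero]
  exact m_one

theorem shift1 (t a b : X) (s k : ZMod 2) : (m t 1 0 0 0)⁻¹ * m a b 0 s k = m (t⁻¹ * a) b 0 s k := by
  rw [inv1', m_mul0, par_one, one_mul]
  congr 1 <;> ring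

theorem shift2 (t a b : X) (ht : par t = 0) (s k : ZMod 2) :
    (m 1 t 0 0 0)⁻¹ * m a b 0 s k = m a (t⁻¹ * b) 0 s k := by
  rw [inv2', m_mul0, par_inv, ht, one_mul]
  congr 1 <;> ring

theorem E_m (f : G → ℤ) (a b : X) (s k : ZMod 2) : E f (m a b 0 s k) =
    2 * f (m a b 0 s k) + ∑ t ∈ T, f (m (t⁻¹ * a) b 0 s k) + ∑ t ∈ T, f (m a (t⁻¹ * b) 0 s k) := by
  unfold E
  rw [Finset.sum_add_distrib, ← add_assoc]
  congr 1
  · congr 1
    exact Finset.sum_congr rfl fun t _ => by rw [shift1]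
  · exact Finset.sum_congr rfl fun t ht => by rw [shift2 _ _ _ (T_par t ht)]

/-- sign of an element of `ZMod 2` -/
def sn (e : ZMod 2) : ℤ := if e = 0 then 1 else -1

theorem OCF.sign {f : G → ℤ} (hf : OCF f) (x y : X) (e s k : ZMod 2) :
    f (m x y e s k) = sn e * f (m x y 0 s k) := by
  rcases s_cases e with rfl | rfl
  · simp [sn]
  · have h := hf.odd (m x y 0 s k)
    rw [z_mul, add_zero] at h
    rw [h]; simp [sn]

theorem OCF.z1 {f : G → ℤ} (hf : OCF f) (x y : X) (e s k : ZMod 2) :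
    f (m (z0 * x) y e s k) = - f (m x y e s k) := by rw [m_z0_left, hf.odd]

theorem OCF.z2 {f : G → ℤ} (hf : OCF f) (x y : X) (e s k : ZMod 2) :
    f (m x (z0 * y) e s k) = - f (m x y e s k) := by rw [m_z0_right, hf.odd]

theorem OCF.c1 {f : G → ℤ} (hf : OCF f) (h a b : X) (k : ZMod 2) :
    f (m (h * a * h⁻¹) b 0 0 k) = sn (par h * par b) * f (m a b 0 0 k) := by
  have h1 := hf.cl _ _ _ (conj1 h a b k)
  rw [hf.sign (h * a * h⁻¹)] at h1
  rw [h1, ← mul_assoc]
  have : sn (par h * par b) * sn (par h * par b) = 1 := by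
    generalize par h * par b = e
    revert e; decide
  rw [this, one_mul]

theorem OCF.c2 {f : G → ℤ} (hf : OCF f) (h a b : X) (k : ZMod 2) :
    f (m a (h * b * h⁻¹) 0 0 k) = sn (par h * par a) * f (m a b 0 0 k) := by
  have h1 := hf.cl _ _ _ (conj2 h a b k)
  rw [hf.sign a (h * b * h⁻¹)] at h1
  rw [h1, ← mul_assoc]
  have : sn (par h * par a) * sn (par h * par a) = 1 := by
    generalize par h * par a = e
    revert e; decide
  rw [this, one_mul]

theorem OCF.cS {f : G → ℤ} (hf : OCF f) (a b : X) (k : ZMod 2) :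
    f (m a b 0 0 k) = sn (par a * par b + k) * f (m b a 0 0 k) := by
  have h1 := hf.cl _ _ _ (conjS a b k)
  rwa [hf.sign b a] at h1

theorem OCF.s1 {f : G → ℤ} (hf : OCF f) (a b : X) (k : ZMod 2) : f (m a b 0 1 k) = 0 := by
  have h1 := hf.cl _ _ _ (conjK a b k)
  rw [hf.sign a b 1] at h1
  simp only [sn] at h1
  norm_num at h1
  linarith

theorem OCF.oo {f : G → ℤ} (hf : OCF f) (a b : X) (k : ZMod 2) (ha : par a = 1) (hb : par b = 1) :
    f (m a b 0 0 k) = 0 := by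
  have h1 := hf.cl _ _ _ (conj1' a b k)
  rw [hf.sign a b (par a * par b), ha, hb] at h1
  simp only [sn] at h1
  norm_num at h1
  linarith

theorem sn_zero : sn 0 = 1 := rfl
theorem sn_one : sn 1 = -1 := rfl

theorem OCF.oe {f : G → ℤ} (hf : OCF f) (a b : X) (k : ZMod 2) (ha : par a = 1) (hb : par b = 0) :
    f (m a b 0 0 k) = f (m y0 t0 0 0 k) * (cc a * dd b) := by
  have h1 : f (m a b 0 0 k) = f (m y0 b 0 0 k) * cc a :=
    f_odd (fun x => f (m x b 0 0 k)) (fun a => hf.z1 _ _ _ _ _)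
      (fun h a => by rw [hf.c1, hb, mul_zero, sn_zero, one_mul]) a ha
  have h2 : f (m y0 b 0 0 k) = f (m y0 t0 0 0 k) * dd b :=
    f_even' (fun x => f (m y0 x 0 0 k)) (fun a => hf.z2 _ _ _ _ _)
      (fun h a hh => by rw [hf.c2, hh, zero_mul, sn_zero, one_mul])
      (fun h a hh => by
        rw [hf.c2, hh, show par y0 = 1 by decide, mul_one, sn_one]; ring) b hb
  rw [h1, h2]; ring

theorem OCF.eo {f : G → ℤ} (hf : OCF f) (a b : X) (k : ZMod 2) (ha : par a = 0) (hb : par b = 1) :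
    f (m a b 0 0 k) = f (m t0 y0 0 0 k) * (dd a * cc b) := by
  have h1 : f (m a b 0 0 k) = f (m a y0 0 0 k) * cc b :=
    f_odd (fun x => f (m a x 0 0 k)) (fun a => hf.z2 _ _ _ _ _)
      (fun h b => by rw [hf.c2, ha, mul_zero, sn_zero, one_mul]) b hb
  have h2 : f (m a y0 0 0 k) = f (m t0 y0 0 0 k) * dd a :=
    f_even' (fun x => f (m x y0 0 0 k)) (fun a => hf.z1 _ _ _ _ _)
      (fun h a hh => by rw [hf.c1, hh, zero_mul, sn_zero, one_mul])
      (fun h a hh => by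
        rw [hf.c1, hh, show par y0 = 1 by decide, mul_one, sn_one]; ring) a ha
  rw [h1, h2]; ring

theorem OCF.ee {f : G → ℤ} (hf : OCF f) (a b : X) (k : ZMod 2) (ha : par a = 0) (hb : par b = 0) :
    f (m a b 0 0 k) = f (m 1 1 0 0 k) * (nu a * nu b) + f (m t0 1 0 0 k) * (ta a * nu b)
      + f (m 1 t0 0 0 k) * (nu a * ta b) + f (m t0 t0 0 0 k) * (ta a * ta b) := by
  have h1 : ∀ a b, par a = 0 → par b = 0 → f (m a b 0 0 k) = f (m 1 b 0 0 k) * nu a + f (m t0 b 0 0 k) * ta a :=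
    fun a b ha hb => f_even (fun x => f (m x b 0 0 k)) (fun a => hf.z1 _ _ _ _ _)
      (fun h a => by rw [hf.c1, hb, mul_zero, sn_zero, one_mul]) a ha
  have h2 : ∀ a b, par a = 0 → par b = 0 → f (m a b 0 0 k) = f (m a 1 0 0 k) * nu b + f (m a t0 0 0 k) * ta b :=
    fun a b ha hb => f_even (fun x => f (m a x 0 0 k)) (fun a => hf.z2 _ _ _ _ _)
      (fun h b => by rw [hf.c2, ha, mul_zero, sn_zero, one_mul]) b hb
  rw [h1 a b ha hb, h2 1 b par_one hb, h2 t0 b (by decide) hb]; ring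

theorem par_cases (a : X) : par a = 0 ∨ par a = 1 := s_cases _

theorem par_shift {t : X} (ht : t ∈ T) (a : X) : par (t⁻¹ * a) = par a := by
  rw [par_mul, par_inv, T_par t ht, zero_add]

set_option maxRecDepth 100000 in
theorem nu_odd : ∀ a : X, par a = 1 → nu a = 0 := by decide
set_option maxRecDepth 100000 in
theorem ta_odd : ∀ a : X, par a = 1 → ta a = 0 := by decide

/-- the main identity on functions -/
theorem E_eq {f : G → ℤ} (hf : OCF f) (a b : X) (s k : ZMod 2) :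
    E f (m a b 0 s k) = if s = 0 ∧ k = 0 then
      (2 * f (m 1 1 0 0 0) + 16 * f (m t0 1 0 0 0)) * (nu a * nu b)
        + (f (m 1 1 0 0 0) + 8 * f (m t0 t0 0 0 0)) * (ta a * nu b + nu a * ta b)
        + (2 * f (m t0 1 0 0 0) - 2 * f (m t0 t0 0 0 0)) * (ta a * ta b) else 0 := by
  rw [E_m]
  rcases s_cases s with rfl | rfl
  swap
  · simp [hf.s1]
  rcases par_cases a with ha | ha <;> rcases par_cases b with hb | hb
  · -- even, even
    have e1 : ∑ t ∈ T, f (m (t⁻¹ * a) b 0 0 k) =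
        f (m 1 1 0 0 k) * (ta a * nu b) + f (m t0 1 0 0 k) * ((8 * nu a - 2 * ta a) * nu b)
      + f (m 1 t0 0 0 k) * (ta a * ta b) + f (m t0 t0 0 0 k) * ((8 * nu a - 2 * ta a) * ta b) := by
      rw [← conv2 a ha, ← conv1 a ha]
      simp only [Finset.sum_mul, Finset.mul_sum]
      rw [← Finset.sum_add_distrib, ← Finset.sum_add_distrib, ← Finset.sum_add_distrib]
      refine Finset.sum_congr rfl fun t ht => ?_
      rw [hf.ee _ _ _ (by rw [par_shift ht, ha]) hb]
    have e2 : ∑ t ∈ T, f (m a (t⁻¹ * b) 0 0 k) =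
        f (m 1 1 0 0 k) * (nu a * ta b) + f (m t0 1 0 0 k) * (ta a * ta b)
      + f (m 1 t0 0 0 k) * (nu a * (8 * nu b - 2 * ta b)) + f (m t0 t0 0 0 k) * (ta a * (8 * nu b - 2 * ta b)) := by
      rw [← conv2 b hb, ← conv1 b hb]
      simp only [Finset.mul_sum]
      rw [← Finset.sum_add_distrib, ← Finset.sum_add_distrib, ← Finset.sum_add_distrib]
      refine Finset.sum_congr rfl fun t ht => ?_
      rw [hf.ee _ _ _ ha (by rw [par_shift ht, hb])]
    rw [e1, e2, hf.ee a b k ha hb]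
    have p0 : par t0 = 0 := by decide
    rcases s_cases k with rfl | rfl
    · have h1 := hf.cS t0 1 0
      rw [p0, par_one, mul_zero, add_zero, sn_zero, one_mul] at h1
      rw [if_pos ⟨rfl, rfl⟩, ← h1]
      ring
    · have h1 := hf.cS t0 1 1
      have h2 := hf.cS 1 1 1
      have h3 := hf.cS t0 t0 1
      rw [p0, par_one, mul_zero, zero_add, sn_one] at h1
      rw [par_one, mul_zero, zero_add, sn_one] at h2
      rw [p0, mul_zero, zero_add, sn_one] at h3
      have h4 : f (m 1 1 0 0 1) = 0 := by linarith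
      have h5 : f (m t0 t0 0 0 1) = 0 := by linarith
      rw [if_neg (by decide), h4, h5, h1]
      ring
  · have e1 : ∑ t ∈ T, f (m (t⁻¹ * a) b 0 0 k) = f (m t0 y0 0 0 k) * (2 * dd a * cc b) := by
      rw [← conv3 a ha]
      simp only [Finset.sum_mul, Finset.mul_sum]
      refine Finset.sum_congr rfl fun t ht => ?_
      rw [hf.eo _ _ _ (by rw [par_shift ht, ha]) hb]
    have e2 : ∑ t ∈ T, f (m a (t⁻¹ * b) 0 0 k) = f (m t0 y0 0 0 k) * (dd a * (-4 * cc b)) := by
      rw [← conv4 b hb]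
      simp only [Finset.mul_sum]
      refine Finset.sum_congr rfl fun t ht => ?_
      rw [hf.eo _ _ _ ha (by rw [par_shift ht, hb])]
    rw [e1, e2, hf.eo a b k ha hb]
    rw [nu_odd b hb, ta_odd b hb]
    split_ifs <;> ring
  · have e1 : ∑ t ∈ T, f (m (t⁻¹ * a) b 0 0 k) = f (m y0 t0 0 0 k) * (-4 * cc a * dd b) := by
      rw [← conv4 a ha]
      simp only [Finset.sum_mul, Finset.mul_sum]
      refine Finset.sum_congr rfl fun t ht => ?_
      rw [hf.oe _ _ _ (by rw [par_shift ht, ha]) hb]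
    have e2 : ∑ t ∈ T, f (m a (t⁻¹ * b) 0 0 k) = f (m y0 t0 0 0 k) * (cc a * (2 * dd b)) := by
      rw [← conv3 b hb]
      simp only [Finset.mul_sum]
      refine Finset.sum_congr rfl fun t ht => ?_
      rw [hf.oe _ _ _ ha (by rw [par_shift ht, hb])]
    rw [e1, e2, hf.oe a b k ha hb]
    rw [nu_odd a ha, ta_odd a ha]
    split_ifs <;> ring
  · have e1 : ∑ t ∈ T, f (m (t⁻¹ * a) b 0 0 k) = 0 :=
      Finset.sum_eq_zero fun t ht => hf.oo _ _ _ (by rw [par_shift ht, ha]) hb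
    have e2 : ∑ t ∈ T, f (m a (t⁻¹ * b) 0 0 k) = 0 :=
      Finset.sum_eq_zero fun t ht => hf.oo _ _ _ ha (by rw [par_shift ht, hb])
    rw [e1, e2, hf.oo a b k ha hb]
    rw [nu_odd a ha, ta_odd a ha]
    split_ifs <;> ring

end Pool.Agent.H334R3.Ber
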