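import Pool.Agent.H334R3.Ber.X

set_option autoImplicit false

namespace Pool.Agent.H334R3.Ber
open X

def sg (e : ZMod 2) : X := if e = 0 then 1 else z0

theorem sg_zero : sg 0 = 1 := rfl
theorem sg_one : sg 1 = z0 := rfl
theorem sg_add (a b : ZMod 2) : sg (a + b) = sg a * sg b := by revert a b; decide
theorem sg_comm (e : ZMod 2) (x : X) : sg e * x = x * sg e := by
  unfold sg; split_ifs
  · simp
  · exact z0_comm x
theorem par_sg (e : ZMod 2) : par (sg e) = 0 := by revert e; decide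
theorem sg_inj (a b : ZMod 2) (h : sg a = sg b) : a = b := by revert a b; decide

/-- `(x, y, e, s, k)` stands for `ι₁ x * ι₂ y * z ^ e * S ^ s * K ^ k` -/
@[ext] structure Gam where
  x : X
  y : X
  e : ZMod 2
  s : ZMod 2
  k : ZMod 2

namespace Gam

instance : Mul Gam := ⟨fun g h => if g.s = 0 then
    ⟨g.x * h.x, g.y * h.y, g.e + h.e + (par g.y * par h.x + g.k * h.s), h.s, g.k + h.k⟩
  else
    ⟨g.x * h.y, g.y * h.x, g.e + h.e + (par g.y * par h.y + par h.x * par h.y + g.k * h.s), 1 + h.s, g.k + h.k⟩⟩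

theorem mul0 (x y : X) (e k : ZMod 2) (h : Gam) : (⟨x, y, e, 0, k⟩ : Gam) * h =
    ⟨x * h.x, y * h.y, e + h.e + (par y * par h.x + k * h.s), h.s, k + h.k⟩ := rfl
theorem mul1 (x y : X) (e k : ZMod 2) (h : Gam) : (⟨x, y, e, 1, k⟩ : Gam) * h =
    ⟨x * h.y, y * h.x, e + h.e + (par y * par h.y + par h.x * par h.y + k * h.s), 1 + h.s, k + h.k⟩ := rfl

instance : One Gam := ⟨⟨1, 1, 0, 0, 0⟩⟩
theorem one_def : (1 : Gam) = ⟨1, 1, 0, 0, 0⟩ := rfl

theorem s_cases (s : ZMod 2) : s = 0 ∨ s = 1 := by revert s; decide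

theorem par_inv (x : X) : par x⁻¹ = par x := by
  have h : par (x⁻¹ * x) = 0 := by rw [inv_mul_cancel]; exact par_one
  rw [par_mul] at h
  revert h
  generalize par x⁻¹ = a
  generalize par x = b
  revert a b; decide

theorem two_z : (2 : ZMod 2) = 0 := rfl

theorem mul_assoc' (a b c : Gam) : a * b * c = a * (b * c) := by
  obtain ⟨x1, y1, e1, s1, k1⟩ := a
  obtain ⟨x2, y2, e2, s2, k2⟩ := b
  obtain ⟨x3, y3, e3, s3, k3⟩ := c
  rcases s_cases s1 with rfl | rfl <;> rcases s_cases s2 with rfl | rfl <;>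
    simp only [mul0, mul1, show (1 : ZMod 2) + 0 = 1 from rfl, show (1 : ZMod 2) + 1 = 0 from rfl,
      par_mul]
  · refine Gam.ext ?_ ?_ ?_ ?_ ?_ <;> dsimp only
    · rw [mul_assoc]
    · rw [mul_assoc]
    · ring
    · ring
  · refine Gam.ext ?_ ?_ ?_ ?_ ?_ <;> dsimp only
    · rw [mul_assoc]
    · rw [mul_assoc]
    · ring
    · ring
  · refine Gam.ext ?_ ?_ ?_ ?_ ?_ <;> dsimp only
    · rw [mul_assoc]
    · rw [mul_assoc]
    · linear_combination (-(par y2 * par x3)) * two_z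
    · ring
  · refine Gam.ext ?_ ?_ ?_ ?_ ?_ <;> dsimp only
    · rw [mul_assoc]
    · rw [mul_assoc]
    · linear_combination (-(par y2 * par y3) - par x3 * par y3) * two_z
    · linear_combination (-1) * two_z
    · ring

instance : Inv Gam := ⟨fun g => if g.s = 0 then ⟨g.x⁻¹, g.y⁻¹, g.e + par g.y * par g.x, 0, g.k⟩
  else ⟨g.y⁻¹, g.x⁻¹, g.e + g.k, 1, g.k⟩⟩

theorem inv0 (x y : X) (e k : ZMod 2) : (⟨x, y, e, 0, k⟩ : Gam)⁻¹ = ⟨x⁻¹, y⁻¹, e + par y * par x, 0, k⟩ := rfl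
theorem inv1 (x y : X) (e k : ZMod 2) : (⟨x, y, e, 1, k⟩ : Gam)⁻¹ = ⟨y⁻¹, x⁻¹, e + k, 1, k⟩ := rfl

instance : Group Gam where
  mul_assoc := mul_assoc'
  one_mul g := by
    rw [one_def, mul0]
    refine Gam.ext ?_ ?_ ?_ ?_ ?_ <;> dsimp only
    · rw [one_mul]
    · rw [one_mul]
    · rw [par_one]; ring
    · ring
  mul_one g := by
    obtain ⟨x, y, e, s, k⟩ := g
    rw [one_def]
    rcases s_cases s with rfl | rfl
    · rw [mul0]
      refine Gam.ext ?_ ?_ ?_ ?_ ?_ <;> dsimp only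
      · rw [mul_one]
      · rw [mul_one]
      · rw [par_one]; ring
      · ring
    · rw [mul1]
      refine Gam.ext ?_ ?_ ?_ ?_ ?_ <;> dsimp only
      · rw [mul_one]
      · rw [mul_one]
      · rw [par_one]; ring
      · ring
      · ring
  inv_mul_cancel g := by
    obtain ⟨x, y, e, s, k⟩ := g
    rw [one_def]
    rcases s_cases s with rfl | rfl
    · rw [inv0, mul0]
      refine Gam.ext ?_ ?_ ?_ ?_ ?_ <;> dsimp only
      · rw [inv_mul_cancel]
      · rw [inv_mul_cancel]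
      · rw [par_inv]; linear_combination (e + par x * par y) * two_z
      · linear_combination k * two_z
    · rw [inv1, mul1]
      refine Gam.ext ?_ ?_ ?_ ?_ ?_ <;> dsimp only
      · rw [inv_mul_cancel]
      · rw [inv_mul_cancel]
      · rw [par_inv]; linear_combination (e + k + par x * par y) * two_z
      · rfl
      · linear_combination k * two_z

instance : Finite Gam := by
  apply Finite.of_injective (fun g : Gam => (g.x, g.y, g.e, g.s, g.k))
  rintro ⟨x, y, e, s, k⟩ ⟨x', y', e', s', k'⟩ h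
  simp only [Prod.mk.injEq] at h
  obtain ⟨rfl, rfl, rfl, rfl, rfl⟩ := h
  rfl

theorem par_sg_mul (e : ZMod 2) (x : X) : par (sg e * x) = par x := by
  rw [par_mul, par_sg, zero_add]

theorem sg_self (e : ZMod 2) : sg e * sg e = 1 := by revert e; decide
theorem sg_inv (e : ZMod 2) : (sg e)⁻¹ = sg e := by rw [inv_eq_iff_mul_eq_one, sg_self]

/-- the normal subgroup identifying `(-1,1)`, `(1,-1)` and the sign `e` -/
def N : Subgroup Gam where
  carrier := {g | ∃ a b : ZMod 2, g = ⟨sg a, sg b, a + b, 0, 0⟩}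
  mul_mem' := by
    rintro _ _ ⟨a, b, rfl⟩ ⟨a', b', rfl⟩
    refine ⟨a + a', b + b', ?_⟩
    rw [mul0]
    refine Gam.ext ?_ ?_ ?_ ?_ ?_ <;> dsimp only
    · rw [sg_add]
    · rw [sg_add]
    · rw [par_sg]; ring
    · ring
  one_mem' := ⟨0, 0, rfl⟩
  inv_mem' := by
    rintro _ ⟨a, b, rfl⟩
    refine ⟨a, b, ?_⟩
    rw [inv0, sg_inv, sg_inv, par_sg]
    refine Gam.ext ?_ ?_ ?_ ?_ ?_ <;> dsimp only
    ring

theorem mem_N {g : Gam} : g ∈ N ↔ ∃ a b : ZMod 2, g = ⟨sg a, sg b, a + b, 0, 0⟩ := Iff.rfl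

instance : N.Normal := by
  constructor
  rintro _ ⟨a, b, rfl⟩ ⟨x, y, e, s, k⟩
  rcases s_cases s with rfl | rfl
  · refine ⟨a, b, ?_⟩
    rw [mul_inv_eq_iff_eq_mul, mul0, mul0]
    refine Gam.ext ?_ ?_ ?_ ?_ ?_ <;> dsimp only
    · rw [sg_comm]
    · rw [sg_comm]
    · rw [par_sg, par_sg]; ring
    · ring
  · refine ⟨b, a, ?_⟩
    rw [mul_inv_eq_iff_eq_mul, mul1, mul0]
    refine Gam.ext ?_ ?_ ?_ ?_ ?_ <;> dsimp only
    · rw [sg_comm]
    · rw [sg_comm]
    · rw [par_sg, par_sg]; ring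
    · ring
    · ring

end Gam

/-- the group `G` of order `4608` -/
abbrev G : Type := Gam ⧸ Gam.N

namespace G
open Gam

/-- the class in `G` of the tuple -/
def m (x y : X) (e s k : ZMod 2) : G := (QuotientGroup.mk (⟨x, y, e, s, k⟩ : Gam) : Gam ⧸ Gam.N)

theorem m_surj (g : G) : ∃ x y e s k, g = m x y e s k := by
  obtain ⟨⟨x, y, e, s, k⟩, rfl⟩ := QuotientGroup.mk_surjective g
  exact ⟨x, y, e, s, k, rfl⟩

theorem m_mul0 (x y : X) (e k : ZMod 2) (x' y' : X) (e' s' k' : ZMod 2) :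
    m x y e 0 k * m x' y' e' s' k' = m (x * x') (y * y') (e + e' + (par y * par x' + k * s')) s' (k + k') := rfl
theorem m_mul1 (x y : X) (e k : ZMod 2) (x' y' : X) (e' s' k' : ZMod 2) :
    m x y e 1 k * m x' y' e' s' k' =
      m (x * y') (y * x') (e + e' + (par y * par y' + par x' * par y' + k * s')) (1 + s') (k + k') := rfl

theorem m_eq_iff (x y : X) (e s k : ZMod 2) (x' y' : X) (e' s' k' : ZMod 2) :
    m x y e s k = m x' y' e' s' k' ↔ s = s' ∧ k = k' ∧ ∃ a b, x' = x * sg a ∧ y' = y * sg b ∧ e' = e + (a + b) := by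
  unfold m
  rw [QuotientGroup.eq]
  constructor
  · rintro ⟨a, b, h⟩
    rw [inv_mul_eq_iff_eq_mul] at h
    rcases s_cases s with rfl | rfl
    · rw [mul0, Gam.ext_iff] at h
      dsimp only at h
      obtain ⟨h1, h2, h3, h4, h5⟩ := h
      refine ⟨h4.symm, by rw [h5, add_zero], a, b, h1, h2, ?_⟩
      rw [h3, par_sg]; ring
    · rw [mul1, Gam.ext_iff] at h
      dsimp only at h
      obtain ⟨h1, h2, h3, h4, h5⟩ := h
      refine ⟨h4.symm, by rw [h5, add_zero], b, a, h1, h2, ?_⟩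
      rw [h3, par_sg]; ring
  · rintro ⟨rfl, rfl, a, b, rfl, rfl, rfl⟩
    rcases s_cases s with rfl | rfl
    · refine ⟨a, b, ?_⟩
      rw [inv_mul_eq_iff_eq_mul, mul0]
      refine Gam.ext ?_ ?_ ?_ ?_ ?_ <;> dsimp only
      · rw [par_sg]; ring
      · ring
    · refine ⟨b, a, ?_⟩
      rw [inv_mul_eq_iff_eq_mul, mul1]
      refine Gam.ext ?_ ?_ ?_ ?_ ?_ <;> dsimp only
      · rw [par_sg]; ring
      · rfl
      · ring

/-- the central element -/
def z : G := m 1 1 1 0 0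

theorem z_mul (x y : X) (e s k : ZMod 2) : z * m x y e s k = m x y (1 + e) s k := by
  unfold z
  rw [m_mul0, par_one, one_mul, one_mul]
  congr 1 <;> ring

theorem mul_z (x y : X) (e s k : ZMod 2) : m x y e s k * z = m x y (1 + e) s k := by
  unfold z
  rcases s_cases s with rfl | rfl
  · rw [m_mul0, par_one, mul_one, mul_one]
    congr 1 <;> ring
  · rw [m_mul1, par_one, mul_one, mul_one]
    congr 1 <;> ring

theorem z_comm (g : G) : z * g = g * z := by
  obtain ⟨x, y, e, s, k, rfl⟩ := m_surj g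
  rw [z_mul, mul_z]

theorem z_sq : z * z = 1 := by
  have := z_mul 1 1 1 0 0
  exact this

theorem m_one : m 1 1 0 0 0 = 1 := rfl

/-- normal form with `e = 0` -/
theorem m_surj0 (g : G) : ∃ x y s k, g = m x y 0 s k := by
  obtain ⟨x, y, e, s, k, rfl⟩ := m_surj g
  refine ⟨x * sg e, y, s, k, ?_⟩
  rw [m_eq_iff]
  refine ⟨rfl, rfl, e, 0, rfl, ?_, ?_⟩
  · rw [sg_zero, mul_one]
  · linear_combination (-e) * two_z

theorem m_z0_left (x y : X) (e s k : ZMod 2) : m (z0 * x) y e s k = z * m x y e s k := by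
  rw [z_mul, m_eq_iff]
  refine ⟨rfl, rfl, 1, 0, ?_, ?_, ?_⟩
  · rw [sg_one, ← z0_comm, ← mul_assoc, z0_sq, one_mul]
  · rw [sg_zero, mul_one]
  · ring

theorem m_z0_right (x y : X) (e s k : ZMod 2) : m x (z0 * y) e s k = z * m x y e s k := by
  rw [z_mul, m_eq_iff]
  refine ⟨rfl, rfl, 0, 1, ?_, ?_, ?_⟩
  · rw [sg_zero, mul_one]
  · rw [sg_one, ← z0_comm, ← mul_assoc, z0_sq, one_mul]
  · ring

/-- conjugation by `ι₁ h` on `s = 0` -/
theorem conj1 (h a b : X) (k : ZMod 2) :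
    m h 1 0 0 0 * m a b 0 0 k = m (h * a * h⁻¹) b (par h * par b) 0 k * m h 1 0 0 0 := by
  rw [m_mul0, m_mul0, par_one, inv_mul_cancel_right, one_mul, mul_one]
  congr 1
  · linear_combination (-(par h * par b)) * two_z
  · ring

/-- conjugation by `ι₂ h` on `s = 0` -/
theorem conj2 (h a b : X) (k : ZMod 2) :
    m 1 h 0 0 0 * m a b 0 0 k = m a (h * b * h⁻¹) (par h * par a) 0 k * m 1 h 0 0 0 := by
  rw [m_mul0, m_mul0, par_one, inv_mul_cancel_right, one_mul, mul_one]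
  congr 1
  · ring
  · ring

/-- conjugation by `S` on `s = 0` -/
theorem conjS (a b : X) (k : ZMod 2) :
    m 1 1 0 1 0 * m a b 0 0 k = m b a (par a * par b + k) 0 k * m 1 1 0 1 0 := by
  rw [m_mul1, m_mul0, par_one, one_mul, one_mul, mul_one, mul_one]
  congr 1
  · linear_combination (-k) * two_z
  · ring

/-- conjugation by `K` on `s = 1` -/
theorem conjK (a b : X) (k : ZMod 2) :
    m 1 1 0 0 1 * m a b 0 1 k = m a b 1 1 k * m 1 1 0 0 1 := by
  rw [m_mul0, m_mul1, par_one, one_mul, one_mul, mul_one, mul_one]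
  congr 1
  · simp
  · ring
  · ring

/-- conjugation by `ι₁ a` on `ι₁ a ι₂ b K ^ k` -/
theorem conj1' (a b : X) (k : ZMod 2) :
    m a 1 0 0 0 * m a b 0 0 k = m a b (par a * par b) 0 k * m a 1 0 0 0 := by
  have := conj1 a a b k
  rwa [mul_inv_cancel_right] at this

end G
end Pool.Agent.H334R3.Ber
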