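import Pool.Agent.H334R3.Ber.Alg

set_option autoImplicit false

namespace Pool.Agent.H334R3.Ber
open X Gam G

theorem comm_all (x : A) (hx : ∀ h g : G, x.coeff (h * g) = x.coeff (g * h)) (y : A) : y * x = x * y := by
  induction y using MonoidAlgebra.induction_linear with
  | zero => rw [zero_mul, mul_zero]
  | add f g hf hg => rw [add_mul, mul_add, hf, hg]
  | single h r =>
    apply MonoidAlgebra.ext
    ext g
    rw [MonoidAlgebra.coeff_single_mul_apply, MonoidAlgebra.coeff_mul_single_apply, hx, mul_comm]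

abbrev R : Type := ↥(Subring.center A)

theorem z_odd (x : A) (g : G) (hx : ∃ y : A, x = (1 - sA z) * y) : x.coeff (z * g) = - x.coeff g := by
  obtain ⟨y, rfl⟩ := hx
  rw [oneSub_coeff, oneSub_coeff, fm_odd]

theorem u0_odd (g : G) : u0.coeff (z * g) = - u0.coeff g := z_odd _ _ ⟨_, rfl⟩
theorem w0_odd (g : G) : w0.coeff (z * g) = - w0.coeff g := z_odd _ _ ⟨_, rfl⟩

set_option maxRecDepth 100000 in
theorem nu_conj : ∀ h a : X, nu (h * a * h⁻¹) = nu a := by decide
set_option maxRecDepth 100000 in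
theorem ta_conj : ∀ h a : X, ta (h * a * h⁻¹) = ta a := by decide

theorem u0_comm (y : A) : y * u0 = u0 * y :=
  comm_all u0 (comm_of _ (fun a b => 2 * (nu a * nu b) + (ta a * nu b + nu a * ta b)) u0_coeff u0_odd
    (fun h a b => by rw [nu_conj, ta_conj]) (fun h a b => by rw [nu_conj, ta_conj]) (fun a b => by ring)
    (fun a b ha => by rw [nu_odd a ha, ta_odd a ha]; ring)) y

theorem w0_comm (y : A) : y * w0 = w0 * y :=
  comm_all w0 (comm_of _ (fun a b => 8 * (nu a * nu b) + ta a * ta b) w0_coeff w0_odd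
    (fun h a b => by rw [nu_conj, ta_conj]) (fun h a b => by rw [nu_conj, ta_conj]) (fun a b => by ring)
    (fun a b ha => by rw [nu_odd a ha, ta_odd a ha]; ring)) y

noncomputable def u : R := ⟨u0, Subring.mem_center_iff.2 u0_comm⟩
noncomputable def w : R := ⟨w0, Subring.mem_center_iff.2 w0_comm⟩

/-- odd coefficient functional -/
def fh (g : G) : R →+ ℤ where
  toFun x := fm x.1 g
  map_zero' := by simp [fm]
  map_add' x y := fm_add _ _ _

noncomputable def al : R →+ ℤ := fh (m 1 1 0 0 0) + (8 : ℕ) • fh (m t0 t0 0 0 0)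
noncomputable def de : R →+ ℤ := fh (m t0 1 0 0 0) - fh (m t0 t0 0 0 0)

theorem al_apply (x : R) : al x = fm x.1 (m 1 1 0 0 0) + 8 * fm x.1 (m t0 t0 0 0 0) := by
  simp [al, fh]
theorem de_apply (x : R) : de x = fm x.1 (m t0 1 0 0 0) - fm x.1 (m t0 t0 0 0 0) := by
  simp [de, fh]

theorem ocf_R (x : R) : OCF (fm x.1) := ocf_fm _ fun h => Subring.mem_center_iff.1 x.2 (sA h)

theorem main_id (x : R) : u * x = (al x : R) * u + 2 * (de x : R) * w := by
  apply Subtype.ext
  have e1 : ((u * x : R) : A) = u0 * x.1 := rfl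
  have e2 : (((al x : R) * u + 2 * (de x : R) * w : R) : A) = (al x) • u0 + (2 * de x) • w0 := by
    rw [zsmul_eq_mul, zsmul_eq_mul]
    push_cast
    rfl
  rw [e1, e2]
  apply MonoidAlgebra.ext
  ext g
  obtain ⟨a, b, s, k, rfl⟩ := m_surj0 g
  rw [u0_mul, E_eq (ocf_R x), MonoidAlgebra.coeff_add, Finsupp.add_apply, MonoidAlgebra.coeff_smul,
    MonoidAlgebra.coeff_smul, Finsupp.smul_apply, Finsupp.smul_apply, u0_coeff, w0_coeff, al_apply, de_apply]
  split_ifs
  · simp only [smul_eq_mul]; ring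
  · simp

theorem fm_u0 (g : G) : fm u0 g = 2 * u0.coeff g := by
  unfold fm; rw [u0_odd]; ring
theorem fm_w0 (g : G) : fm w0 g = 2 * w0.coeff g := by
  unfold fm; rw [w0_odd]; ring

theorem u_11 : u0.coeff (m 1 1 0 0 0) = 2 := by rw [u0_coeff]; decide
theorem u_t1 : u0.coeff (m t0 1 0 0 0) = 1 := by rw [u0_coeff]; decide
theorem u_tt : u0.coeff (m t0 t0 0 0 0) = 0 := by rw [u0_coeff]; decide
theorem w_11 : w0.coeff (m 1 1 0 0 0) = 8 := by rw [w0_coeff]; decide
theorem w_t1 : w0.coeff (m t0 1 0 0 0) = 0 := by rw [w0_coeff]; decide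
theorem w_tt : w0.coeff (m t0 t0 0 0 0) = 1 := by rw [w0_coeff]; decide

theorem ind (p q : ℤ) (h : (p : R) * u + (q : R) * w = 0) : p = 0 ∧ q = 0 := by
  have h' : p • u0 + q • w0 = (0 : A) := by
    have := congrArg (fun x : R => (x : A)) h
    have e2 : (((p : R) * u + (q : R) * w : R) : A) = p • u0 + q • w0 := by
      rw [zsmul_eq_mul, zsmul_eq_mul]
      push_cast
      rfl
    rw [← e2]; exact this
  have key : ∀ g : G, p * u0.coeff g + q * w0.coeff g = 0 := by
    intro g
    have h3 : (p • u0 + q • w0 : A).coeff g = (0 : A).coeff g := by rw [h']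
    rw [MonoidAlgebra.coeff_add, Finsupp.add_apply, MonoidAlgebra.coeff_smul,
      MonoidAlgebra.coeff_smul, Finsupp.smul_apply, Finsupp.smul_apply, smul_eq_mul, smul_eq_mul] at h3
    exact h3
  have k1 := key (m 1 1 0 0 0)
  have k2 := key (m t0 1 0 0 0)
  rw [u_11, w_11] at k1
  rw [u_t1, w_t1] at k2
  constructor <;> linarith

theorem exists_equiv : ∃ σ : R ≃+* R, ∀ x, σ x = x - (de x : R) * u := by
  refine abs_equiv u w al de main_id ind ?_ ?_ ?_ ?_
  · rw [al_apply, show (u : R).1 = u0 from rfl, fm_u0, fm_u0, u_11, u_tt]; norm_num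
  · rw [de_apply, show (u : R).1 = u0 from rfl, fm_u0, fm_u0, u_t1, u_tt]; norm_num
  · rw [al_apply, show (w : R).1 = w0 from rfl, fm_w0, fm_w0, w_11, w_tt]; norm_num
  · rw [de_apply, show (w : R).1 = w0 from rfl, fm_w0, fm_w0, w_t1, w_tt]; norm_num

theorem u0_class (g g' : G) (h : IsConj g g') : u0.coeff g = u0.coeff g' := by
  obtain ⟨c, rfl⟩ := isConj_iff.1 h
  have hx := comm_of _ (fun a b => 2 * (nu a * nu b) + (ta a * nu b + nu a * ta b)) u0_coeff u0_odd
    (fun h a b => by rw [nu_conj, ta_conj]) (fun h a b => by rw [nu_conj, ta_conj]) (fun a b => by ring)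
    (fun a b ha => by rw [nu_odd a ha, ta_odd a ha]; ring) c (g * c⁻¹)
  rw [← mul_assoc, inv_mul_cancel_right] at hx
  exact hx.symm

theorem cf {H : Type} [Group H] [Fintype H] (c : ConjClasses H)
    (inst : DecidablePred (fun g : H => ConjClasses.mk g = c)) (g : H) :
    (∑ g ∈ Finset.univ.filter (fun g : H => ConjClasses.mk g = c),
              MonoidAlgebra.single g (1 : ℤ) : MonoidAlgebra ℤ H).coeff g = if ConjClasses.mk g = c then 1 else 0 := by
  classical
  rw [MonoidAlgebra.coeff_sum, Finsupp.finsetSum_apply]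
  simp only [MonoidAlgebra.coeff_single, Finsupp.single_apply]
  rw [Finset.sum_ite_eq']
  simp

open Classical in
/-- the statement of the problem, for one group -/
def Stmt (G : Type) [Group G] [Fintype G] : Prop :=
    ∀ (σ : ↥(Subring.center (MonoidAlgebra ℤ G)) ≃+* ↥(Subring.center (MonoidAlgebra ℤ G))),
    ∃ π : Equiv.Perm (ConjClasses G), ∃ ε : ConjClasses G → ℤ,
      (∀ c, ε c = 1 ∨ ε c = -1) ∧
      ∀ (c : ConjClasses G) (x : ↥(Subring.center (MonoidAlgebra ℤ G))),
        (x : MonoidAlgebra ℤ G) =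
            ∑ g ∈ Finset.univ.filter (fun g : G => ConjClasses.mk g = c),
              MonoidAlgebra.single g (1 : ℤ) →
        ((σ x : ↥(Subring.center (MonoidAlgebra ℤ G))) : MonoidAlgebra ℤ G) =
          ε c • ∑ g ∈ Finset.univ.filter (fun g : G => ConjClasses.mk g = π c),
              MonoidAlgebra.single g (1 : ℤ)

/-- the conjecture fails for `G` -/
theorem final [Fintype G] (H : Stmt G) : False := by
  obtain ⟨σ, hσ⟩ := exists_equiv
  obtain ⟨π, ε, hε, H⟩ := H σ
  set c : ConjClasses G := ConjClasses.mk (m t0 1 0 0 0) with hc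
  set x0 : A := ∑ g ∈ @Finset.filter _ (fun g : G => ConjClasses.mk g = c) (fun _ => Classical.propDecidable _) Finset.univ,
              MonoidAlgebra.single g (1 : ℤ) with hx0
  have hx0c : ∀ y : A, y * x0 = x0 * y := by
    apply comm_all
    intro h g
    rw [cf, cf]
    have : ConjClasses.mk (h * g) = ConjClasses.mk (g * h) := by
      rw [ConjClasses.mk_eq_mk_iff_isConj, isConj_iff]
      exact ⟨h⁻¹, by group⟩
    by_cases hh : ConjClasses.mk (g * h) = c
    · rw [if_pos hh, if_pos (this.trans hh)]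
    · rw [if_neg hh, if_neg (fun h' => hh (this.symm.trans h'))]
  let x : R := ⟨x0, Subring.mem_center_iff.2 hx0c⟩
  have h1 := H c x (by
    change x0 = _
    rw [hx0]
    congr)
  have hcls : ∀ g : G, ConjClasses.mk g = c → u0.coeff g = 1 := by
    intro g hg
    rw [hc, ConjClasses.mk_eq_mk_iff_isConj] at hg
    rw [u0_class _ _ hg, u_t1]
  have hde : de x = 1 := by
    rw [de_apply]
    unfold fm
    change x0.coeff _ - x0.coeff _ - (x0.coeff _ - x0.coeff _) = 1
    rw [cf, cf, cf, cf, if_pos rfl, if_neg, if_neg, if_neg]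
    · norm_num
    · intro h; have := hcls _ h; rw [u0_odd, u_tt] at this; norm_num at this
    · intro h; have := hcls _ h; rw [u_tt] at this; norm_num at this
    · intro h; have := hcls _ h; rw [u0_odd, u_t1] at this; norm_num at this
  have h2 : ((σ x : R) : A).coeff 1 = -2 := by
    rw [hσ x, hde]
    have : (((x : R) - ((1 : ℤ) : R) * u : R) : A) = x0 - u0 := by
      push_cast; rw [one_mul]; rfl
    rw [this, MonoidAlgebra.coeff_sub, Finsupp.sub_apply, cf, if_neg, ← m_one, u_11]
    · norm_num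
    · intro h; have := hcls _ h; rw [← m_one, u_11] at this; norm_num at this
  rw [h1, MonoidAlgebra.coeff_smul, Finsupp.smul_apply, cf] at h2
  rcases hε c with h | h <;> rw [h] at h2 <;> split_ifs at h2 <;> norm_num at h2

/-- the conjecture fails -/
theorem final' (H : ∀ (G : Type) [Group G] [Fintype G], Stmt G) : False :=
  @final (Fintype.ofFinite _) (@H G _ (Fintype.ofFinite _))

end Pool.Agent.H334R3.Ber
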