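import Mathlib

set_option autoImplicit false

namespace Pool.Agent.H334R3.Ber

/-- `GL(2,3)` as quadruples of elements of `ZMod 3` with nonzero determinant. -/
def X : Type := {p : ZMod 3 × ZMod 3 × ZMod 3 × ZMod 3 // p.1 * p.2.2.2 - p.2.1 * p.2.2.1 ≠ 0}

instance : DecidableEq X := inferInstanceAs (DecidableEq {p : ZMod 3 × ZMod 3 × ZMod 3 × ZMod 3 // p.1 * p.2.2.2 - p.2.1 * p.2.2.1 ≠ 0})
instance : Fintype X := inferInstanceAs (Fintype {p : ZMod 3 × ZMod 3 × ZMod 3 × ZMod 3 // p.1 * p.2.2.2 - p.2.1 * p.2.2.1 ≠ 0})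

namespace X

def det (x : X) : ZMod 3 := x.1.1 * x.1.2.2.2 - x.1.2.1 * x.1.2.2.1
def tr (x : X) : ZMod 3 := x.1.1 + x.1.2.2.2

theorem sq_eq (d : ZMod 3) (h : d ≠ 0) : d * d = 1 := by revert d; decide

instance : Mul X := ⟨fun x y => ⟨(x.1.1 * y.1.1 + x.1.2.1 * y.1.2.2.1, x.1.1 * y.1.2.1 + x.1.2.1 * y.1.2.2.2,
  x.1.2.2.1 * y.1.1 + x.1.2.2.2 * y.1.2.2.1, x.1.2.2.1 * y.1.2.1 + x.1.2.2.2 * y.1.2.2.2), by
    have h := mul_ne_zero x.2 y.2
    intro h'
    apply h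
    dsimp only at h' ⊢
    linear_combination h'⟩⟩

instance : One X := ⟨⟨(1, 0, 0, 1), by decide⟩⟩

instance : Inv X := ⟨fun x => ⟨(det x * x.1.2.2.2, - det x * x.1.2.1, - det x * x.1.2.2.1, det x * x.1.1), by
    have h := mul_ne_zero (mul_ne_zero x.2 x.2) x.2
    intro h'
    apply h
    dsimp only [det] at h' ⊢
    linear_combination h'⟩⟩

theorem mul_val (x y : X) : (x * y).1 = (x.1.1 * y.1.1 + x.1.2.1 * y.1.2.2.1, x.1.1 * y.1.2.1 + x.1.2.1 * y.1.2.2.2,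
  x.1.2.2.1 * y.1.1 + x.1.2.2.2 * y.1.2.2.1, x.1.2.2.1 * y.1.2.1 + x.1.2.2.2 * y.1.2.2.2) := rfl
theorem one_val : (1 : X).1 = (1, 0, 0, 1) := rfl
theorem inv_val (x : X) : (x⁻¹).1 = (det x * x.1.2.2.2, - det x * x.1.2.1, - det x * x.1.2.2.1, det x * x.1.1) := rfl

instance : Group X where
  mul_assoc x y z := by
    apply Subtype.ext
    simp only [mul_val]
    refine Prod.ext ?_ (Prod.ext ?_ (Prod.ext ?_ ?_)) <;> dsimp only <;> ring
  one_mul x := by
    apply Subtype.ext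
    simp only [mul_val, one_val]
    refine Prod.ext ?_ (Prod.ext ?_ (Prod.ext ?_ ?_)) <;> dsimp only <;> ring
  mul_one x := by
    apply Subtype.ext
    simp only [mul_val, one_val]
    refine Prod.ext ?_ (Prod.ext ?_ (Prod.ext ?_ ?_)) <;> dsimp only <;> ring
  inv_mul_cancel x := by
    have h : det x * det x = 1 := sq_eq _ x.2
    apply Subtype.ext
    simp only [mul_val, one_val, inv_val]
    refine Prod.ext ?_ (Prod.ext ?_ (Prod.ext ?_ ?_)) <;> dsimp only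
    · rw [← h]; simp only [det]; ring
    · ring
    · ring
    · rw [← h]; simp only [det]; ring

/-- the parity -/
def par (x : X) : ZMod 2 := if det x = 1 then 0 else 1

/-- the central element `-1` -/
def z0 : X := ⟨(2, 0, 0, 2), by decide⟩

theorem det_mul (x y : X) : det (x * y) = det x * det y := by
  simp only [det, mul_val]; ring

theorem det_cases (x : X) : det x = 1 ∨ det x = 2 := by
  have h : det x ≠ 0 := x.2
  revert h
  generalize det x = d
  revert d; decide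

theorem par_mul (x y : X) : par (x * y) = par x + par y := by
  unfold par
  rw [det_mul]
  rcases det_cases x with h | h <;> rcases det_cases y with h' | h' <;> rw [h, h'] <;> decide

set_option maxRecDepth 100000 in
theorem z0_comm (x : X) : z0 * x = x * z0 := by
  revert x; decide

theorem z0_sq : z0 * z0 = 1 := by decide
theorem z0_ne : z0 ≠ 1 := by decide
theorem par_z0 : par z0 = 0 := by decide
theorem par_one : par (1 : X) = 0 := by decide

def t0 : X := ⟨(1, 1, 0, 1), by decide⟩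
def y0 : X := ⟨(0, 1, 1, 1), by decide⟩

def nu (x : X) : ℤ := if x = 1 then 1 else if x = z0 then -1 else 0
def ta (x : X) : ℤ := if det x = 1 then
    (if x = 1 ∨ x = z0 then 0 else if tr x = 2 then 1 else if tr x = 1 then -1 else 0) else 0
def dd (x : X) : ℤ := if det x = 1 ∧ tr x ≠ 0 ∧ x ≠ 1 ∧ x ≠ z0 then
    (if (if x.1.2.1 = 0 then - x.1.2.2.1 else x.1.2.1) = 1 then 1 else -1) else 0
def cc (x : X) : ℤ := if det x = 1 then 0 else if tr x = 1 then 1 else if tr x = 2 then -1 else 0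

def T : Finset X := Finset.univ.filter (fun x => ta x = 1)

set_option maxRecDepth 100000 in
theorem T_card : T.card = 8 := by decide

set_option maxRecDepth 100000 in
theorem conv1 : ∀ a : X, par a = 0 → ∑ t ∈ T, nu (t⁻¹ * a) = ta a := by decide

set_option maxRecDepth 100000 in
theorem conv2 : ∀ a : X, par a = 0 → ∑ t ∈ T, ta (t⁻¹ * a) = 8 * nu a - 2 * ta a := by decide

set_option maxRecDepth 100000 in
theorem conv3 : ∀ a : X, par a = 0 → ∑ t ∈ T, dd (t⁻¹ * a) = 2 * dd a := by decide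

set_option maxRecDepth 100000 in
theorem conv4 : ∀ a : X, par a = 1 → ∑ t ∈ T, cc (t⁻¹ * a) = -4 * cc a := by decide

set_option maxRecDepth 100000 in
/-- classification of the even elements up to conjugation -/
theorem cls_even : ∀ a : X, par a = 0 →
    (nu a = 0 ∧ ta a = 0 ∧ ∃ h : X, h * a * h⁻¹ = z0 * a) ∨
    (a = 1 ∧ nu a = 1 ∧ ta a = 0) ∨ (a = z0 ∧ nu a = -1 ∧ ta a = 0) ∨
    (nu a = 0 ∧ ta a = 1 ∧ ∃ h : X, h * t0 * h⁻¹ = a) ∨
    (nu a = 0 ∧ ta a = -1 ∧ ∃ h : X, h * t0 * h⁻¹ = z0 * a) := by decide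

set_option maxRecDepth 100000 in
/-- classification of the even elements up to signed conjugation -/
theorem cls_even' : ∀ a : X, par a = 0 →
    (dd a = 0 ∧ ∃ h : X, par h = 0 ∧ h * a * h⁻¹ = z0 * a) ∨
    (dd a = 0 ∧ ∃ h : X, par h = 1 ∧ h * a * h⁻¹ = a) ∨
    (dd a = 1 ∧ ∃ h : X, par h = 0 ∧ h * t0 * h⁻¹ = a) ∨
    (dd a = -1 ∧ ∃ h : X, par h = 0 ∧ h * t0 * h⁻¹ = z0 * a) ∨
    (dd a = -1 ∧ ∃ h : X, par h = 1 ∧ h * t0 * h⁻¹ = a) ∨
    (dd a = 1 ∧ ∃ h : X, par h = 1 ∧ h * t0 * h⁻¹ = z0 * a) := by decide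

set_option maxRecDepth 100000 in
theorem cls_odd : ∀ a : X, par a = 1 →
    (cc a = 0 ∧ ∃ h : X, h * a * h⁻¹ = z0 * a) ∨
    (cc a = 1 ∧ ∃ h : X, h * y0 * h⁻¹ = a) ∨
    (cc a = -1 ∧ ∃ h : X, h * y0 * h⁻¹ = z0 * a) := by decide

set_option maxRecDepth 100000 in
theorem T_par : ∀ t ∈ T, par t = 0 := by decide

theorem f_even (f : X → ℤ) (hz : ∀ a, f (z0 * a) = - f a) (hc : ∀ h a, f (h * a * h⁻¹) = f a)
    (a : X) (ha : par a = 0) : f a = f 1 * nu a + f t0 * ta a := by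
  rcases cls_even a ha with ⟨h1, h2, h, hh⟩ | ⟨h0, h1, h2⟩ | ⟨h0, h1, h2⟩ | ⟨h1, h2, h, hh⟩ | ⟨h1, h2, h, hh⟩
  · have := hc h a
    rw [hh, hz] at this
    rw [h1, h2]; linarith
  · rw [h1, h2, h0]; ring
  · rw [h1, h2, h0]
    have := hz 1
    rw [mul_one] at this
    rw [this]; ring
  · rw [h1, h2, ← hh, hc]; ring
  · have := hc h t0
    rw [hh, hz] at this
    rw [h1, h2]; linarith

theorem f_even' (f : X → ℤ) (hz : ∀ a, f (z0 * a) = - f a) (hc : ∀ h a, par h = 0 → f (h * a * h⁻¹) = f a)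
    (hc' : ∀ h a, par h = 1 → f (h * a * h⁻¹) = - f a)
    (a : X) (ha : par a = 0) : f a = f t0 * dd a := by
  rcases cls_even' a ha with ⟨h1, h, h2, hh⟩ | ⟨h1, h, h2, hh⟩ | ⟨h1, h, h2, hh⟩ | ⟨h1, h, h2, hh⟩ | ⟨h1, h, h2, hh⟩ | ⟨h1, h, h2, hh⟩
  · have := hc h a h2
    rw [hh, hz] at this
    rw [h1]; linarith
  · have := hc' h a h2
    rw [hh] at this
    rw [h1]; linarith
  · rw [h1, ← hh, hc h _ h2]; ring
  · have := hc h t0 h2
    rw [hh, hz] at this
    rw [h1]; linarith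
  · rw [h1, ← hh, hc' h _ h2]; ring
  · have := hc' h t0 h2
    rw [hh, hz] at this
    rw [h1]; linarith

theorem f_odd (f : X → ℤ) (hz : ∀ a, f (z0 * a) = - f a) (hc : ∀ h a, f (h * a * h⁻¹) = f a)
    (a : X) (ha : par a = 1) : f a = f y0 * cc a := by
  rcases cls_odd a ha with ⟨h1, h, hh⟩ | ⟨h1, h, hh⟩ | ⟨h1, h, hh⟩
  · have := hc h a
    rw [hh, hz] at this
    rw [h1]; linarith
  · rw [h1, ← hh, hc]; ring
  · have := hc h y0
    rw [hh, hz] at this
    rw [h1]; linarith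

end X
end Pool.Agent.H334R3.Ber
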